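import Pool.Agent.H89.NV.TU2

/-!
# Row U_HKZ of `nvk_modules`: the Hecke operators on sums over vectors
-/

set_option autoImplicit false

namespace Pool.Agent.H2.NVK

open MeasureTheory Set Filter NumberField NumberField.InfinitePlace
open Pool.Agent.H65.CM4 Pool.Agent.H61.NVK Pool.Agent.H89.NV
open scoped Real

section

variable {k : Type} [Field k] [NumberField k]

theorem ci_ne (c : ClassGroup (𝓞 k)) : ci c ≠ ⊥ := nonZeroDivisors.ne_zero (cr c).2

variable [IsTotallyReal k]

omit [IsTotallyReal k] in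
theorem Vs_congr (f : Ideal (𝓞 k)) (w w' : VV k) (A : Ideal (𝓞 k)) (b : 𝓞 k)
    (h : ∀ (a : Ideal (𝓞 k)) (u : V2 k), a ≠ ⊥ → u ∈ Lb a (A * f) → w a A b u = w' a A b u) :
    Vs f w A b = Vs f w' A b := by
  classical
  unfold Vs
  refine Finset.sum_congr rfl (fun a _ => ?_)
  refine tsum_congr (fun u => ?_)
  split_ifs with hu
  · exact h (ci a) u (ci_ne a) hu.1
  · rfl

theorem qd_pos (b D : 𝓞 k) (hD : tp D) (u : V2 k) (hu : u ≠ 0) : 0 < qd (em b) (em D) u := by
  unfold qd Pool.Agent.H89.NV.em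
  refine Finset.prod_pos (fun v _ => ?_)
  have hDv : 0 < rv v (D : k) := hD v
  by_cases h2 : u.2 = 0
  · have h1 : u.1 ≠ 0 := fun h1 => hu (Prod.ext h1 h2)
    have h1' : rv v (u.1 : k) ≠ 0 := by
      rw [Ne, map_eq_zero]
      intro h0
      exact h1 (RingOfIntegers.coe_injective (by rw [map_zero]; exact h0))
    rw [h2]
    have hz : rv v (((0 : 𝓞 k) : k)) = 0 := by
      rw [map_eq_zero]; rfl
    rw [hz]
    have : 0 < rv v (u.1 : k) ^ 2 := by positivity
    nlinarith
  · have h2' : rv v (u.2 : k) ≠ 0 := by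
      rw [Ne, map_eq_zero]
      intro h0
      exact h2 (RingOfIntegers.coe_injective (by rw [map_zero]; exact h0))
    have h3 : 0 < rv v (D : k) * rv v (u.2 : k) ^ 2 := by positivity
    have h4 : 0 ≤ (rv v (u.1 : k) + rv v (u.2 : k) * rv v (b : k) / 2) ^ 2 := sq_nonneg _
    linarith

end

theorem pf_HKZ (k : Type) [Field k] [NumberField k] [IsTotallyReal k] (_hRSB : T_RSB k)
    (hIDL : T_IDL k) (hTRV : T_TRV k) (_hGRW : T_GRW k) (hHK1 : T_HK1 k) (hHK2 : T_HK2 k) :
    T_HKZ k := by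
  classical
  intro f D l φ hf hD hl hφ
  obtain ⟨C0, hC0⟩ := hφ
  obtain ⟨-, -, -, -, hone, hnp, -⟩ := hIDL
  have hnm : ∀ I : Ideal (𝓞 k), I ≠ ⊥ → 0 < nm I := fun I hI => by
    have := hone I hI; linarith
  have hnp0 : ∀ P : PrI k, 0 < np P := fun P => by have := hnp P; linarith
  have hnS0 : ∀ m : Finset (PrI k), 0 < nS m := fun m => Finset.prod_pos (fun P _ => hnp0 P)
  have hnf : ∀ (a A : Ideal (𝓞 k)) (b : 𝓞 k) (u : V2 k), a ≠ ⊥ → A ≠ ⊥ → u ≠ 0 →
      0 < nf a A f (em b) (em D) u := by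
    intro a A b u ha hA hu
    unfold nf
    have h1 := hnm a ha
    have h2 := hnm A hA
    have h3 := hnm f hf
    exact div_pos (qd_pos b D hD u hu) (by positivity)
  induction l with
  | nil =>
    intro A b hF
    unfold TL
    rw [List.foldr_nil]
    refine Vs_congr f _ _ A b (fun a u _ _ => ?_)
    simp [nS, nu]
  | cons P l ih =>
    intro A b hF
    have hPl : P ∉ l := (List.nodup_cons.1 hl).1
    have ih' := ih (List.nodup_cons.1 hl).2
    set H : VV k := fun a A b u => φ (nf a A f (em b) (em D) u / nS l.toFinset) *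
        nu f l.toFinset a A b (q4 (b ^ 2 + D)) u with hH
    obtain ⟨-, -, -, -, hrt, hdv⟩ := hTRV f A D b hf hF
    -- the values of the inner function
    have h1 : TL f (P :: l) (fun A b _ => Vs f (fun a A b u => φ (nf a A f (em b) (em D) u)) A b)
        A b (q4 (b ^ 2 + D)) = Tp f P.1 (fun A b _ => Vs f H A b) A b (q4 (b ^ 2 + D)) := by
      unfold TL
      rw [List.foldr_cons]
      unfold Tp
      congr 1
      · split_ifs with hP
        · have := ih' (dvi A P.1) b (hdv P.1 hP)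
          unfold TL at this
          exact this
        · rfl
      · refine Finset.sum_congr rfl (fun j hj => ?_)
        obtain ⟨h2, h3⟩ := hrt P.1 j P.2.2 hj
        rw [← h3]
        have := ih' (P.1 * A) (b + 2 * j) h2
        unfold TL at this
        exact this
    have hinv : ∀ (a A : Ideal (𝓞 k)) (b t : 𝓞 k) (u : V2 k), t ≠ 0 → a ≠ ⊥ → Fm f D A b →
        u ∈ Lb a (A * f) → H (Ideal.span {t} * a) A b (t • u) = H a A b u := by
      intro a A b t u ht ha hF hu
      obtain ⟨h2, -, -⟩ := hHK2 f D hf hD a A b u ha hF hu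
      simp only [hH]
      rw [(h2 P t ht).2.1]
      congr 2
      unfold nu
      exact Finset.prod_congr rfl (fun Q _ => (h2 Q t ht).1)
    have hbd : ∃ C : ℝ, ∀ (a A : Ideal (𝓞 k)) (b : 𝓞 k) (u : V2 k), a ≠ ⊥ → Fm f D A b →
        u ∈ Lb a (A * f) → u ≠ 0 → |H a A b u| ≤ C / nf a A f (em b) (em D) u ^ 2 := by
      refine ⟨C0 * nS l.toFinset ^ 2 * ∏ Q ∈ l.toFinset, (np Q + 1), ?_⟩
      intro a A b u ha hF hu hu0
      have hn := hnf a A b u ha hF.ne hu0
      have hS := hnS0 l.toFinset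
      simp only [hH]
      rw [abs_mul]
      have h2 := hC0 (nf a A f (em b) (em D) u / nS l.toFinset) (div_pos hn hS)
      have h3 : |(nu f l.toFinset a A b (q4 (b ^ 2 + D)) u : ℝ)| ≤
          ∏ Q ∈ l.toFinset, (np Q + 1) := by
        rw [abs_of_nonneg (Nat.cast_nonneg _)]
        unfold nu
        rw [Nat.cast_prod]
        refine Finset.prod_le_prod (fun _ _ => Nat.cast_nonneg _) (fun Q _ => ?_)
        exact ((hHK2 f D hf hD a A b u ha hF hu).1 Q 1 one_ne_zero).2.2
      have h4 : 0 ≤ C0 / (nf a A f (em b) (em D) u / nS l.toFinset) ^ 2 := (abs_nonneg _).trans h2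
      calc |φ (nf a A f (em b) (em D) u / nS l.toFinset)| *
            |(nu f l.toFinset a A b (q4 (b ^ 2 + D)) u : ℝ)|
          ≤ C0 / (nf a A f (em b) (em D) u / nS l.toFinset) ^ 2 * ∏ Q ∈ l.toFinset, (np Q + 1) :=
            mul_le_mul h2 h3 (abs_nonneg _) h4
        _ = _ := by
            have hn' := hn.ne'
            have hS' := hS.ne'
            field_simp
    rw [h1, hHK1 f D P H hf hD hinv hbd A b hF]
    refine Vs_congr f _ _ A b (fun a u ha hu => ?_)
    obtain ⟨-, h2, h3⟩ := hHK2 f D hf hD a A b u ha hF hu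
    have hnS : nS (P :: l).toFinset = np P * nS l.toFinset := by
      unfold nS
      rw [List.toFinset_cons, Finset.prod_insert (by rw [List.mem_toFinset]; exact hPl)]
    have hnu : (nu f (P :: l).toFinset a A b (q4 (b ^ 2 + D)) u : ℝ) =
        (nuP f P.1 a A b (q4 (b ^ 2 + D)) u : ℝ) * nu f l.toFinset a A b (q4 (b ^ 2 + D)) u := by
      unfold nu
      rw [List.toFinset_cons, Finset.prod_insert (by rw [List.mem_toFinset]; exact hPl)]
      push_cast
      rfl
    have hne : ∀ Q ∈ l.toFinset, Q ≠ P := by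
      intro Q hQ hQP
      rw [List.mem_toFinset, hQP] at hQ
      exact hPl hQ
    obtain ⟨X, hX⟩ : ∃ X : ℝ, X = φ (nf a A f (em b) (em D) u / (np P * nS l.toFinset)) *
        nu f l.toFinset a A b (q4 (b ^ 2 + D)) u := ⟨_, rfl⟩
    have e1 : (if P.1 ∣ A ∧ u.2 ∈ P.1 * a then H (P.1 * a) (dvi A P.1) b u else 0) =
        (if P.1 ∣ A ∧ u.2 ∈ P.1 * a then 1 else 0 : ℕ) * X := by
      split_ifs with hP
      · obtain ⟨h4, h5⟩ := h2 P hP.1 hP.2
        simp only [hH]
        rw [h4, div_div, hX, Nat.cast_one, one_mul]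
        congr 2
        unfold nu
        exact Finset.prod_congr rfl (fun Q hQ => h5 Q (hne Q hQ))
      · rw [Nat.cast_zero, zero_mul]
    have e2 : ∑ j ∈ (rts f P.1 A b (q4 (b ^ 2 + D))).filter
          (fun j => u.1 - j * u.2 ∈ P.1 * (a * (A * f))),
          H a (P.1 * A) (b + 2 * j) (u.1 - j * u.2, u.2) =
        ((rts f P.1 A b (q4 (b ^ 2 + D))).filter
          (fun j => u.1 - j * u.2 ∈ P.1 * (a * (A * f)))).card * X := by
      rw [← nsmul_eq_mul, ← Finset.sum_const]
      refine Finset.sum_congr rfl (fun j hj => ?_)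
      rw [Finset.mem_filter] at hj
      obtain ⟨h4, h5⟩ := h3 P j hj.1 hj.2
      obtain ⟨-, h6⟩ := hrt P.1 j P.2.2 hj.1
      simp only [hH]
      rw [h4, div_div, hX, h6]
      congr 2
      unfold nu
      exact Finset.prod_congr rfl (fun Q hQ => h5 Q (hne Q hQ))
    rw [e1, e2, hnS, hnu]
    unfold nuP
    rw [Nat.cast_add, hX]
    ring

end Pool.Agent.H2.NVK
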