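import Pool.Agent.H89.NV.TU2
import Pool.Agent.H98.CM4.EMB

/-!
# Row U_IXN of `nvk_modules`: homothetic lattices have the same norms
-/

set_option autoImplicit false

namespace Pool.Agent.H2.NVK

open MeasureTheory Set Filter NumberField NumberField.InfinitePlace
open Pool.Agent.H65.CM4 Pool.Agent.H61.NVK Pool.Agent.H89.NV
open scoped Real

section

variable {k : Type} [Field k] [NumberField k] [IsTotallyReal k]
variable {D : 𝓞 k} {K : Type} [Field K] [Algebra k K]

/-- the module of the determinants -/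
def dtS (h : CK D K) (M : Submodule (𝓞 k) K) : Submodule (𝓞 k) k :=
  Submodule.span (𝓞 k) {c | ∃ x ∈ M, ∃ y ∈ M, c = h.re x * h.im y - h.im x * h.re y}

omit [NumberField k] [IsTotallyReal k] in
theorem osmul (c : 𝓞 k) (x : k) : c • x = (c : k) * x := rfl

theorem mem_dtS (hCKB : T_CKB k) (hLMB : T_LMB k) (hD : tp D) (h : CK D K)
    (f a A : Ideal (𝓞 k)) (b : 𝓞 k) (hf : f ≠ ⊥) (hF : Fm f D A b) (c : k) :
    c ∈ dtS h (hom a 1 (Lam h f A b)) ↔ ∃ w ∈ a * (A * f) * a, c = (w : k) / 2 := by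
  obtain ⟨-, -, -, -, -, -, -, hC⟩ := hCKB D hD K h
  obtain ⟨-, -, -, -, hdt, -, -⟩ := hC f A b hf hF
  obtain ⟨hL, -, -⟩ := hLMB D hD K h f a A b hf hF
  constructor
  · intro hc
    unfold dtS at hc
    induction hc using Submodule.span_induction with
    | mem c hc =>
      obtain ⟨x, hx, y, hy, rfl⟩ := hc
      obtain ⟨u, hu, rfl⟩ := (hL x).1 hx
      obtain ⟨v, hv, rfl⟩ := (hL y).1 hy
      rw [hdt u v]
      refine ⟨_, ?_, rfl⟩
      have hu1 : u.1 ∈ a * (A * f) := hu.1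
      have hu2 : u.2 ∈ a := hu.2
      have hv1 : v.1 ∈ a * (A * f) := hv.1
      have hv2 : v.2 ∈ a := hv.2
      refine Ideal.sub_mem _ (Ideal.mul_mem_mul hu1 hv2) ?_
      rw [mul_comm u.2 v.1]
      exact Ideal.mul_mem_mul hv1 hu2
    | zero => exact ⟨0, Ideal.zero_mem _, by simp⟩
    | add x y _ _ hx hy =>
      obtain ⟨w1, hw1, rfl⟩ := hx
      obtain ⟨w2, hw2, rfl⟩ := hy
      refine ⟨w1 + w2, Ideal.add_mem _ hw1 hw2, ?_⟩
      push_cast
      ring
    | smul c x _ hx =>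
      obtain ⟨w1, hw1, rfl⟩ := hx
      refine ⟨c * w1, Ideal.mul_mem_left _ _ hw1, ?_⟩
      rw [osmul]
      push_cast
      ring
  · rintro ⟨w, hw, rfl⟩
    induction hw using Submodule.mul_induction_on' with
    | mem_mul_mem x hx y hy =>
      refine Submodule.subset_span ⟨zz h b (x, 0), (hL _).2 ⟨(x, 0), ⟨hx, Ideal.zero_mem _⟩, rfl⟩,
        zz h b (0, y), (hL _).2 ⟨(0, y), ⟨Ideal.zero_mem _, hy⟩, rfl⟩, ?_⟩
      rw [hdt]
      simp
    | add x _ y _ hx hy =>
      have := Submodule.add_mem _ hx hy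
      have he : ((x + y : 𝓞 k) : k) / 2 = (x : k) / 2 + (y : k) / 2 := by push_cast; ring
      rw [he]
      exact this

omit [NumberField k] [IsTotallyReal k] in
theorem hom_mul (a : Ideal (𝓞 k)) (g : K) (L : Submodule (𝓞 k) K) :
    hom a g L = (hom a 1 L).map (LinearMap.mulLeft (𝓞 k) g) := by
  unfold hom
  rw [Submodule.map_smul'', ← Submodule.map_comp]
  congr 2
  ext x
  simp

end

theorem pf_IXN (k : Type) [Field k] [NumberField k] [IsTotallyReal k]
    (hIDL : T_IDL k) (hCKB : T_CKB k) (hLMB : T_LMB k) : T_IXN k := by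
  intro D hD K _ _ h f a a' A A' b b' g hf ha ha' hF hF' hg heq
  obtain ⟨-, -, -, hNr, -, hNm, hN0, -, hsp, -, hI1, -⟩ := Pool.Agent.H98.CM4.pf_EMB k
  obtain ⟨-, -, -, hmul, hone, -, -⟩ := hIDL
  obtain ⟨hnk, hpos, -, -, -, -, hdg, hC⟩ := hCKB D hD K h
  obtain ⟨-, -, -, -, -, hqd, -⟩ := hC f A b hf hF
  obtain ⟨-, -, -, -, -, hqd', -⟩ := hC f A' b' hf hF'
  -- positivity
  have hν : ∀ v : Pl k, 0 < rv v (nk h g) := hpos g hg
  have hν0 : nk h g ≠ 0 := by
    intro h0
    obtain ⟨v⟩ := (inferInstance : Nonempty (Pl k))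
    have := hν v
    rw [h0, map_zero] at this
    exact lt_irrefl _ this
  have hNrν : ∏ v : Pl k, rv v (nk h g) = Nr (nk h g) := by
    unfold Nr
    exact Finset.prod_congr rfl (fun v _ => (abs_of_pos (hν v)).symm)
  -- the determinants
  have hmem : ∀ x : K, x ∈ hom a' 1 (Lam h f A' b') ↔ ∃ y ∈ hom a 1 (Lam h f A b), g * y = x := by
    intro x
    rw [← heq, hom_mul, Submodule.mem_map]
    rfl
  have h1 : ∀ c ∈ dtS h (hom a 1 (Lam h f A b)), nk h g * c ∈ dtS h (hom a' 1 (Lam h f A' b')) := by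
    intro c hc
    unfold dtS at hc
    induction hc using Submodule.span_induction with
    | mem c hc =>
      obtain ⟨x, hx, y, hy, rfl⟩ := hc
      refine Submodule.subset_span ⟨g * x, (hmem _).2 ⟨x, hx, rfl⟩, g * y, (hmem _).2 ⟨y, hy, rfl⟩, ?_⟩
      rw [hdg]
    | zero => rw [mul_zero]; exact Submodule.zero_mem _
    | add x y _ _ hx hy => rw [mul_add]; exact Submodule.add_mem _ hx hy
    | smul c x _ hx =>
      have := Submodule.smul_mem _ c hx
      rw [osmul] at this ⊢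
      have he : nk h g * ((c : k) * x) = (c : k) * (nk h g * x) := by ring
      rw [he]
      exact this
  have h2 : ∀ c ∈ dtS h (hom a' 1 (Lam h f A' b')), ∃ c0 ∈ dtS h (hom a 1 (Lam h f A b)),
      c = nk h g * c0 := by
    intro c hc
    unfold dtS at hc
    induction hc using Submodule.span_induction with
    | mem c hc =>
      obtain ⟨x, hx, y, hy, rfl⟩ := hc
      obtain ⟨x0, hx0, rfl⟩ := (hmem _).1 hx
      obtain ⟨y0, hy0, rfl⟩ := (hmem _).1 hy
      refine ⟨_, Submodule.subset_span ⟨x0, hx0, y0, hy0, rfl⟩, ?_⟩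
      rw [hdg]
    | zero => exact ⟨0, Submodule.zero_mem _, by rw [mul_zero]⟩
    | add x y _ _ hx hy =>
      obtain ⟨x0, hx0, rfl⟩ := hx
      obtain ⟨y0, hy0, rfl⟩ := hy
      exact ⟨x0 + y0, Submodule.add_mem _ hx0 hy0, by rw [mul_add]⟩
    | smul c x _ hx =>
      obtain ⟨x0, hx0, rfl⟩ := hx
      refine ⟨c • x0, Submodule.smul_mem _ c hx0, ?_⟩
      rw [osmul, osmul]; ring
  -- in terms of ideals
  have h3 : ∀ w ∈ a * (A * f) * a, ∃ w' ∈ a' * (A' * f) * a', (w' : k) = nk h g * (w : k) := by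
    intro w hw
    have h4 := h1 _ ((mem_dtS hCKB hLMB hD h f a A b hf hF _).2 ⟨w, hw, rfl⟩)
    obtain ⟨w', hw', he⟩ := (mem_dtS hCKB hLMB hD h f a' A' b' hf hF' _).1 h4
    refine ⟨w', hw', ?_⟩
    have h22 : (2 : k) ≠ 0 := two_ne_zero
    field_simp at he
    exact he.symm
  have h5 : ∀ w' ∈ a' * (A' * f) * a', ∃ w ∈ a * (A * f) * a, (w' : k) = nk h g * (w : k) := by
    intro w' hw'
    obtain ⟨c0, hc0, he⟩ := h2 _ ((mem_dtS hCKB hLMB hD h f a' A' b' hf hF' _).2 ⟨w', hw', rfl⟩)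
    obtain ⟨w, hw, rfl⟩ := (mem_dtS hCKB hLMB hD h f a A b hf hF _).1 hc0
    refine ⟨w, hw, ?_⟩
    have h22 : (2 : k) ≠ 0 := two_ne_zero
    field_simp at he
    exact he
  obtain ⟨r, s, hs, hrs⟩ := IsFractionRing.div_surjective (A := 𝓞 k) (nk h g)
  have hs0 : (s : k) ≠ 0 := by
    have : s ≠ 0 := nonZeroDivisors.ne_zero hs
    exact_mod_cast this
  have hrs' : (r : k) = nk h g * (s : k) := by
    rw [← hrs]
    change (r : k) = (r : k) / (s : k) * (s : k)
    rw [div_mul_cancel₀ _ hs0]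
  have hid : Ideal.span {r} * (a * (A * f) * a) = Ideal.span {s} * (a' * (A' * f) * a') := by
    rw [Ideal.span_singleton_mul_eq_span_singleton_mul]
    constructor
    · intro w hw
      obtain ⟨w', hw', he⟩ := h3 w hw
      refine ⟨w', hw', ?_⟩
      apply RingOfIntegers.coe_injective
      rw [map_mul, map_mul]
      change (r : k) * (w : k) = (s : k) * (w' : k)
      rw [he, hrs']; ring
    · intro w' hw'
      obtain ⟨w, hw, he⟩ := h5 w' hw'
      refine ⟨w, hw, ?_⟩
      apply RingOfIntegers.coe_injective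
      rw [map_mul, map_mul]
      change (r : k) * (w : k) = (s : k) * (w' : k)
      rw [he, hrs']; ring
  have hnmI : nm (Ideal.span {r}) * nm (a * (A * f) * a) =
      nm (Ideal.span {s}) * nm (a' * (A' * f) * a') := by
    rw [← hmul, ← hmul, hid]
  rw [hsp, hsp, hrs', hNm, hmul, hmul, hmul, hmul, hmul, hmul] at hnmI
  have hNs : Nr (s : k) ≠ 0 := by
    intro h0
    exact hs0 ((hN0 _).2.1 h0)
  have hnf : nm f ≠ 0 := by
    have := hone f hf
    linarith
  have hmain : (∏ v : Pl k, rv v (nk h g)) * (nm a ^ 2 * nm A) = nm a' ^ 2 * nm A' := by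
    rw [hNrν]
    have h6 : Nr (s : k) * nm f ≠ 0 := mul_ne_zero hNs hnf
    apply mul_left_cancel₀ h6
    linear_combination hnmI
  refine ⟨hmain, ?_⟩
  intro u u' huu
  have hq : qd (em b') (em D) u' = (∏ v : Pl k, rv v (nk h g)) * qd (em b) (em D) u := by
    rw [hqd', hqd, ← Finset.prod_mul_distrib]
    refine Finset.prod_congr rfl (fun v _ => ?_)
    rw [← huu, hnk, map_mul]
  unfold nf
  rw [hq]
  have hP : (∏ v : Pl k, rv v (nk h g)) ≠ 0 := Finset.prod_ne_zero_iff.2 (fun v _ => (hν v).ne')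
  have hna : nm a ≠ 0 := by have := hone a ha; linarith
  have hna' : nm a' ≠ 0 := by have := hone a' ha'; linarith
  have hnA : nm A ≠ 0 := by have := hone A hF.ne; linarith
  have hnA' : nm A' ≠ 0 := by have := hone A' hF'.ne; linarith
  rw [div_eq_div_iff (by positivity) (by positivity)]
  linear_combination (-(qd (em b) (em D) u) * nm f ^ 2) * hmain
end Pool.Agent.H2.NVK
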