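import Pool.Agent.H91.NV.LTargets

/-!
# Row L_NRM of `nvk_modules`: the number of roots in local coordinates
-/

set_option autoImplicit false

namespace Pool.Agent.H2.NVK

open MeasureTheory Set Filter NumberField NumberField.InfinitePlace
open Pool.Agent.H65.CM4 Pool.Agent.H61.NVK Pool.Agent.H89.NV Pool.Agent.H91.NV
open scoped Real

section

variable {k : Type} [Field k] [NumberField k]

/-- `μ` generates `M` at the prime `P` -/
def Gd (P : PrI k) (M : Ideal (𝓞 k)) (μ : 𝓞 k) : Prop :=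
  ∃ J : Ideal (𝓞 k), Ideal.span {μ} = M * J ∧ ¬ P.1 ∣ J

theorem gd_iff (P : PrI k) (M : Ideal (𝓞 k)) (hM : M ≠ ⊥) (μ : 𝓞 k) :
    Gd P M μ ↔ μ ∈ M ∧ μ ∉ P.1 * M := by
  constructor
  · rintro ⟨J, hJ, hP⟩
    constructor
    · have h1 : M ∣ Ideal.span {μ} := ⟨J, hJ⟩
      exact Ideal.dvd_span_singleton.1 h1
    · intro h
      have h1 : P.1 * M ∣ Ideal.span {μ} := Ideal.dvd_span_singleton.2 h
      rw [hJ, mul_comm P.1 M] at h1
      exact hP ((mul_dvd_mul_iff_left hM).1 h1)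
  · rintro ⟨h1, h2⟩
    obtain ⟨J, hJ⟩ := Ideal.dvd_span_singleton.2 h1
    refine ⟨J, hJ, ?_⟩
    intro hP
    apply h2
    apply Ideal.dvd_span_singleton.1
    rw [hJ, mul_comm P.1 M]
    exact mul_dvd_mul_left M hP

theorem gd_mul (P : PrI k) (M N : Ideal (𝓞 k)) (μ ν : 𝓞 k) (h1 : Gd P M μ) (h2 : Gd P N ν) :
    Gd P (M * N) (μ * ν) := by
  obtain ⟨J1, e1, n1⟩ := h1
  obtain ⟨J2, e2, n2⟩ := h2
  refine ⟨J1 * J2, ?_, ?_⟩
  · rw [← Ideal.span_singleton_mul_span_singleton, e1, e2]; ring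
  · intro h
    have hp : Prime P.1 := Ideal.prime_of_isPrime P.2.2 P.2.1
    rcases hp.dvd_or_dvd h with h | h
    · exact n1 h
    · exact n2 h

theorem cop (P : PrI k) (J : Ideal (𝓞 k)) (h : ¬ P.1 ∣ J) (m : ℕ) : IsCoprime (P.1 ^ m) J := by
  apply IsCoprime.pow_left
  rw [Ideal.isCoprime_iff_sup_eq]
  have hmax : P.1.IsMaximal := Ideal.IsPrime.isMaximal P.2.1 P.2.2
  refine hmax.out.2 _ (lt_of_le_of_ne le_sup_left ?_)
  intro he
  apply h
  rw [Ideal.dvd_iff_le]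
  exact le_sup_right.trans he.symm.le

theorem gd_pow (P : PrI k) (M : Ideal (𝓞 k)) (hM : M ≠ ⊥) (μ : 𝓞 k) (h : Gd P M μ) (m : ℕ)
    (y : 𝓞 k) : μ * y ∈ P.1 ^ m * M ↔ y ∈ P.1 ^ m := by
  obtain ⟨J, hJ, hP⟩ := h
  constructor
  · intro h1
    rw [← Ideal.dvd_span_singleton, ← Ideal.span_singleton_mul_span_singleton, hJ,
      mul_comm (P.1 ^ m) M, mul_assoc] at h1
    have h2 := (mul_dvd_mul_iff_left hM).1 h1
    rw [mul_comm] at h2
    exact Ideal.dvd_span_singleton.1 ((cop P J hP m).dvd_of_dvd_mul_right h2)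
  · intro h1
    have h3 : μ ∈ M := by
      apply Ideal.dvd_span_singleton.1
      exact ⟨J, hJ⟩
    rw [mul_comm μ y]
    exact Ideal.mul_mem_mul h1 h3

theorem gd_ex (P : PrI k) (M : Ideal (𝓞 k)) (μ : 𝓞 k) (h : Gd P M μ) (m : ℕ)
    (z : 𝓞 k) (hz : z ∈ M) : ∃ y, z - μ * y ∈ P.1 ^ m * M := by
  obtain ⟨J, hJ, hP⟩ := h
  have h1 : Ideal.span {μ} ⊔ P.1 ^ m * M = M := by
    rw [hJ, mul_comm (P.1 ^ m) M, ← Ideal.mul_sup, sup_comm,
      (Ideal.isCoprime_iff_sup_eq).1 (cop P J hP m), Ideal.mul_top]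
  rw [← h1] at hz
  obtain ⟨a, ha, b, hb, hab⟩ := Submodule.mem_sup.1 hz
  obtain ⟨y, rfl⟩ := Ideal.mem_span_singleton.1 ha
  refine ⟨y, ?_⟩
  rw [← hab, add_sub_cancel_left]
  exact hb

end

section

variable {k : Type} [Field k] [NumberField k] [IsTotallyReal k]

omit [IsTotallyReal k] in
open Classical in
theorem nrm_one (hRSB : T_RSB k) (f A : Ideal (𝓞 k)) (P : PrI k) (φ α b c : 𝓞 k) (hf : f ≠ ⊥)
    (hA : A ≠ ⊥) (hφ : Gd P f φ) (hα : Gd P A α) (m : ℕ) :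
    nr f (P.1 ^ m) A (φ * b) (α * φ ^ 2 * c) =
      ((Rs (P.1 ^ m)).filter (fun s => α * s ^ 2 + b * s + c ∈ P.1 ^ m)).card := by
  have hAf : A * f ≠ ⊥ := mul_ne_zero hA hf
  have hAf2 : A * f ^ 2 ≠ ⊥ := mul_ne_zero hA (pow_ne_zero 2 hf)
  have hPm : P.1 ^ m ≠ ⊥ := pow_ne_zero m P.2.2
  have g1 : Gd P (A * f) (α * φ) := gd_mul P A f α φ hα hφ
  have g2 : Gd P (A * f ^ 2) (α * φ ^ 2) := by
    rw [pow_two, pow_two]
    exact gd_mul P A (f * f) α (φ * φ) hα (gd_mul P f f φ φ hφ hφ)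
  have hφf : φ ∈ f := ((gd_iff P f hf φ).1 hφ).1
  have hαφ : α * φ ∈ A * f := ((gd_iff P (A * f) hAf _).1 g1).1
  have hR1 := (hRSB.1 (P.1 ^ m * (A * f)) (mul_ne_zero hPm hAf)).1
  have hR2 := (hRSB.1 (P.1 ^ m) hPm).1
  -- periodicity of the condition
  have hper : ∀ j ∈ A * f, ∀ w ∈ P.1 ^ m * (A * f),
      (j + w) ^ 2 + φ * b * (j + w) + α * φ ^ 2 * c ∈ P.1 ^ m * (A * f ^ 2) ↔
        j ^ 2 + φ * b * j + α * φ ^ 2 * c ∈ P.1 ^ m * (A * f ^ 2) := by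
    intro j hj w hw
    have hle1 : P.1 ^ m * (A * f) ≤ A * f := Ideal.mul_le_right
    have hwA : w ∈ A * f := hle1 hw
    have e1 : ∀ u ∈ A * f, w * u ∈ P.1 ^ m * (A * f ^ 2) := by
      intro u hu
      have h1 : w * u ∈ (P.1 ^ m * (A * f)) * (A * f) := Ideal.mul_mem_mul hw hu
      have h2 : (P.1 ^ m * (A * f)) * (A * f) = (P.1 ^ m * (A * f ^ 2)) * A := by ring
      rw [h2] at h1
      have hle2 : (P.1 ^ m * (A * f ^ 2)) * A ≤ P.1 ^ m * (A * f ^ 2) := Ideal.mul_le_left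
      exact hle2 h1
    have e2 : w * φ ∈ P.1 ^ m * (A * f ^ 2) := by
      have h1 : w * φ ∈ (P.1 ^ m * (A * f)) * f := Ideal.mul_mem_mul hw hφf
      have h2 : (P.1 ^ m * (A * f)) * f = P.1 ^ m * (A * f ^ 2) := by ring
      rw [h2] at h1
      exact h1
    have e3 : (j + w) ^ 2 + φ * b * (j + w) + α * φ ^ 2 * c =
        (j ^ 2 + φ * b * j + α * φ ^ 2 * c) + (w * (2 * j + w) + b * (w * φ)) := by ring
    rw [e3]
    refine Ideal.add_mem_iff_left _ (Ideal.add_mem _ (e1 _ ?_) (Ideal.mul_mem_left _ _ e2))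
    exact Ideal.add_mem _ (Ideal.mul_mem_left _ _ hj) hwA
  have hval : ∀ s : 𝓞 k, (α * φ * s) ^ 2 + φ * b * (α * φ * s) + α * φ ^ 2 * c ∈
      P.1 ^ m * (A * f ^ 2) ↔ α * s ^ 2 + b * s + c ∈ P.1 ^ m := by
    intro s
    have e : (α * φ * s) ^ 2 + φ * b * (α * φ * s) + α * φ ^ 2 * c =
        (α * φ ^ 2) * (α * s ^ 2 + b * s + c) := by ring
    rw [e]
    exact gd_pow P _ hAf2 _ g2 m _
  unfold Pool.Agent.H89.NV.nr
  symm
  refine Finset.card_bij (fun s _ => (hR1 (α * φ * s)).choose) ?_ ?_ ?_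
  · intro s hs
    obtain ⟨hs1, hs2⟩ := Finset.mem_filter.1 hs
    obtain ⟨⟨h1, h2⟩, -⟩ := (hR1 (α * φ * s)).choose_spec
    set r := (hR1 (α * φ * s)).choose with hr
    have hsA : α * φ * s ∈ A * f := Ideal.mul_mem_right _ _ hαφ
    have hrA : r ∈ A * f := by
      have hle3 : P.1 ^ m * (A * f) ≤ A * f := Ideal.mul_le_right
      have := Ideal.sub_mem _ hsA (hle3 h2)
      rwa [sub_sub_cancel] at this
    unfold rts
    rw [Finset.mem_filter]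
    refine ⟨h1, hrA, ?_⟩
    rw [← hper r hrA _ h2, add_sub_cancel]
    exact (hval s).2 hs2
  · intro s hs s' hs' he
    obtain ⟨hs1, -⟩ := Finset.mem_filter.1 hs
    obtain ⟨hs1', -⟩ := Finset.mem_filter.1 hs'
    obtain ⟨⟨-, h2⟩, -⟩ := (hR1 (α * φ * s)).choose_spec
    obtain ⟨⟨-, h2'⟩, -⟩ := (hR1 (α * φ * s')).choose_spec
    simp only at he
    rw [← he] at h2'
    have h3 := Ideal.sub_mem _ h2 h2'
    rw [sub_sub_sub_cancel_right, ← mul_sub] at h3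
    have h4 := (gd_pow P _ hAf _ g1 m _).1 h3
    obtain ⟨r, -, hr⟩ := hR2 s
    rw [hr s ⟨hs1, by rw [sub_self]; exact Ideal.zero_mem _⟩, hr s' ⟨hs1', h4⟩]
  · intro r hr
    unfold rts at hr
    rw [Finset.mem_filter] at hr
    obtain ⟨hr1, hr2, hr3⟩ := hr
    obtain ⟨y, hy⟩ := gd_ex P _ _ g1 m r hr2
    obtain ⟨s, ⟨hs1, hs2⟩, -⟩ := hR2 y
    have h1 : α * φ * s - r ∈ P.1 ^ m * (A * f) := by
      have h2 : (α * φ) * (y - s) ∈ P.1 ^ m * (A * f) := (gd_pow P _ hAf _ g1 m _).2 hs2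
      have e : α * φ * s - r = -((r - α * φ * y) + (α * φ) * (y - s)) := by ring
      rw [e]
      exact Ideal.neg_mem_iff _ |>.2 (Ideal.add_mem _ hy h2)
    refine ⟨s, ?_, ?_⟩
    · rw [Finset.mem_filter]
      refine ⟨hs1, ?_⟩
      rw [← hval s]
      have h3 := (hper r hr2 _ h1).2 hr3
      rwa [add_sub_cancel] at h3
    · obtain ⟨-, h3⟩ := (hR1 (α * φ * s)).choose_spec
      exact (h3 r ⟨hr1, h1⟩).symm

end

theorem pf_NRM (k : Type) [Field k] [NumberField k] [IsTotallyReal k] (hRSB : T_RSB k)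
    (hIDL : T_IDL k) (hGOD : T_GOD k) (hNRI : T_NRI k) : T_NRM k := by
  classical
  intro f A P φ α b c hf hA hφ1 hφ2 hα1 hα2
  have gφ : Gd P f φ := (gd_iff P f hf φ).2 ⟨hφ1, hφ2⟩
  have gα : Gd P A α := (gd_iff P A hA α).2 ⟨hα1, hα2⟩
  have gφ2 : Gd P (f ^ 2) (φ ^ 2) := by
    rw [pow_two, pow_two]; exact gd_mul P f f φ φ gφ gφ
  have hf2 : f ^ 2 ≠ ⊥ := pow_ne_zero 2 hf
  refine ⟨fun m => nrm_one hRSB f A P φ α b c hf hA gφ gα m, ?_, ?_, ?_⟩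
  · have h1 : Gd P ⊤ (1 : 𝓞 k) := by
      rw [gd_iff P ⊤ top_ne_bot]
      refine ⟨Submodule.mem_top, ?_⟩
      rw [Ideal.mul_top]
      intro h
      exact P.2.1.ne_top ((Ideal.eq_top_iff_one _).2 h)
    have h2 := nrm_one hRSB f ⊤ P φ 1 b (α * c) hf top_ne_bot gφ h1 1
    have e1 : (1 : 𝓞 k) * φ ^ 2 * (α * c) = α * φ ^ 2 * c := by ring
    rw [pow_one, e1] at h2
    rw [h2]
    congr 1
    refine Finset.filter_congr (fun s _ => ?_)
    rw [one_mul]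
  · have hb : φ * b ∈ f := Ideal.mul_mem_right _ _ hφ1
    have hc : α * φ ^ 2 * c ∈ f ^ 2 := by
      have : φ ^ 2 ∈ f ^ 2 := Ideal.pow_mem_pow hφ1 2
      exact Ideal.mul_mem_right _ _ (Ideal.mul_mem_left _ _ this)
    rw [(hGOD f P (φ * b) (α * φ ^ 2 * c) hf hb hc).2]
    constructor
    · rintro ⟨s', hs', h1, h2⟩
      obtain ⟨s, hs⟩ := gd_ex P f φ gφ 2 s' hs'
      obtain ⟨w, hw⟩ : ∃ w, w = s' - φ * s := ⟨_, rfl⟩
      rw [← hw] at hs
      have hse : s' = φ * s + w := by rw [hw]; ring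
      refine ⟨s, ?_, ?_⟩
      · have h3 : w ∈ P.1 * f := by
          have : P.1 ^ 2 * f ≤ P.1 * f := Ideal.mul_mono_left (Ideal.pow_le_self two_ne_zero)
          exact this hs
        have h4 : φ * (b + 2 * s) ∈ P.1 ^ 1 * f := by
          have e : φ * (b + 2 * s) = (φ * b + 2 * s') - 2 * w := by rw [hse]; ring
          rw [e, pow_one]
          exact Ideal.sub_mem _ h1 (Ideal.mul_mem_left _ _ h3)
        have := (gd_pow P f hf φ gφ 1 _).1 h4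
        rwa [pow_one] at this
      · have e3 : ∀ u ∈ f, w * u ∈ P.1 ^ 2 * f ^ 2 := by
          intro u hu
          have h3 : w * u ∈ (P.1 ^ 2 * f) * f := Ideal.mul_mem_mul hs hu
          have h4 : (P.1 ^ 2 * f) * f = P.1 ^ 2 * f ^ 2 := by ring
          rwa [h4] at h3
        have h5 : φ ^ 2 * (s ^ 2 + b * s + α * c) ∈ P.1 ^ 2 * f ^ 2 := by
          have e : φ ^ 2 * (s ^ 2 + b * s + α * c) =
              (s' ^ 2 + φ * b * s' + α * φ ^ 2 * c) - w * (2 * (φ * s) + w + φ * b) := by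
            rw [hse]; ring
          rw [e]
          refine Ideal.sub_mem _ h2 (e3 _ ?_)
          have hle4 : P.1 ^ 2 * f ≤ f := Ideal.mul_le_right
          have hwf : w ∈ f := hle4 hs
          exact Ideal.add_mem _ (Ideal.add_mem _ (Ideal.mul_mem_left _ _
            (Ideal.mul_mem_right _ _ hφ1)) hwf) hb
        exact (gd_pow P (f ^ 2) hf2 _ gφ2 2 _).1 h5
    · rintro ⟨s, h1, h2⟩
      refine ⟨φ * s, Ideal.mul_mem_right _ _ hφ1, ?_, ?_⟩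
      · have e : φ * b + 2 * (φ * s) = (b + 2 * s) * φ := by ring
        rw [e]
        exact Ideal.mul_mem_mul h1 hφ1
      · have e : (φ * s) ^ 2 + φ * b * (φ * s) + α * φ ^ 2 * c =
            (s ^ 2 + b * s + α * c) * φ ^ 2 := by ring
        rw [e]
        exact Ideal.mul_mem_mul h2 (Ideal.pow_mem_pow hφ1 2)
  · intro hPA α₁ h1 h2
    obtain ⟨hdv, hd0, -⟩ := hIDL.2.1 A P.1 hA hPA
    have g1 : Gd P (dvi A P.1) α₁ := (gd_iff P _ hd0 _).2 ⟨h1, h2⟩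
    have h3 := nrm_one hRSB f (dvi A P.1) P φ α₁ b 0 hf hd0 gφ g1 1
    rw [pow_one, mul_zero] at h3
    obtain ⟨-, -, -, -, h5⟩ := hNRI f P.1 (dvi A P.1) (φ * b) 0 hf P.2.2
    have h6 : α * φ ^ 2 * c ∈ P.1 * (dvi A P.1 * f ^ 2) := by
      rw [← mul_assoc, hdv]
      exact Ideal.mul_mem_right _ _ (Ideal.mul_mem_mul hα1 (Ideal.pow_mem_pow hφ1 2))
    have h7 := h5 _ h6
    rw [zero_add] at h7
    rw [h7, h3]
    congr 1
    refine Finset.filter_congr (fun s _ => ?_)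
    rw [add_zero]

end Pool.Agent.H2.NVK
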